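import Pool.Agent.L7h31.KN.Stm

set_option autoImplicit false

/-!
# Project KN, part GEN: general position
-/

namespace Pool.Agent.L7h82.KN

open scoped BigOperators Topology RealInnerProductSpace
open Filter Pool.Agent.L7h31.KN

theorem s_GEN : S_GEN := by
  classical
  intro d ι _ _ c e hc hce j
  have hjj : ⟪c j, c j⟫ = (1 : ℝ) := by
    rw [real_inner_self_eq_norm_sq, hc j]; norm_num
  -- the projections
  let w : ι → E d := fun i => c i - ⟪c i, c j⟫ • c j
  -- a vector not orthogonal to the nonzero projections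
  have hu : ∃ u : E d, ∀ i : {i // w i ≠ 0}, ⟪w i.1, u⟫ ≠ (0 : ℝ) := by
    obtain ⟨u, hu⟩ := Module.Dual.exists_forall_ne_zero_of_forall_exists
      (K := ℝ) (M := E d) (fun i : {i // w i ≠ 0} => (innerSL ℝ (w i.1)).toLinearMap)
      (fun i => ⟨w i.1, by
        have := i.2
        simpa using this⟩)
    exact ⟨u, fun i => by simpa using hu i⟩
  obtain ⟨u, hu⟩ := hu
  -- the direction and the base point
  let v : E d := u - ⟪u, c j⟫ • c j
  have hvj : ⟪c j, v⟫ = (0 : ℝ) := by
    show ⟪c j, u - ⟪u, c j⟫ • c j⟫ = (0 : ℝ)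
    rw [inner_sub_right, inner_smul_right, hjj, real_inner_comm]
    ring
  have hvi : ∀ i, ⟪c i, v⟫ = ⟪w i, u⟫ := by
    intro i
    show ⟪c i, u - ⟪u, c j⟫ • c j⟫ = ⟪c i - ⟪c i, c j⟫ • c j, u⟫
    rw [inner_sub_right, inner_smul_right, inner_sub_left, inner_smul_left, real_inner_comm u (c j)]
    simp only [conj_trivial]
    ring
  -- the parameter
  obtain ⟨r, hr⟩ := Infinite.exists_notMem_finset
    (Finset.univ.image fun i : ι => (e i - ⟪c i, e j • c j⟫) / ⟪w i, u⟫)
  let x : E d := e j • c j + r • v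
  have hxj : ⟪c j, x⟫ = e j := by
    show ⟪c j, e j • c j + r • v⟫ = e j
    rw [inner_add_right, inner_smul_right, inner_smul_right, hjj, hvj]
    ring
  have hxi : ∀ i, i ≠ j → ⟪c i, x⟫ ≠ e i := by
    intro i hij h
    have h0 : ⟪c i, x⟫ = ⟪c i, e j • c j⟫ + r * ⟪w i, u⟫ := by
      show ⟪c i, e j • c j + r • v⟫ = _
      rw [inner_add_right, inner_smul_right (c i) v, hvi]
    by_cases hw : w i = 0
    · have h1 : c i = ⟪c i, c j⟫ • c j := sub_eq_zero.1 hw
      have h2 : |⟪c i, c j⟫| = (1 : ℝ) := by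
        have h3 := congrArg norm h1
        rw [norm_smul, hc i, hc j, mul_one, Real.norm_eq_abs] at h3
        exact h3.symm
      rw [h0, hw, inner_zero_left, mul_zero, add_zero, inner_smul_right] at h
      rcases eq_or_eq_neg_of_abs_eq h2 with h3 | h3
      · rw [h3, one_smul] at h1
        rw [h3, mul_one] at h
        exact (hce i j hij).1 (Prod.ext h1 h.symm)
      · rw [h3, neg_one_smul] at h1
        rw [h3] at h
        exact (hce i j hij).2 (Prod.ext h1 (by show e i = - e j; linarith))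
    · have h3 := hu ⟨i, hw⟩
      apply hr
      rw [Finset.mem_image]
      refine ⟨i, Finset.mem_univ _, ?_⟩
      rw [div_eq_iff h3]
      rw [h0] at h
      linarith
  -- the second point
  have hev : ∀ᶠ ε in 𝓝[>] (0 : ℝ), ∀ i, i ≠ j → (e i < ⟪c i, x⟫ ↔ e i < ⟪c i, x + ε • c j⟫) := by
    rw [eventually_all]
    intro i
    by_cases hij : i = j
    · exact Eventually.of_forall fun ε h => absurd hij h
    have hcont : Tendsto (fun ε : ℝ => ⟪c i, x + ε • c j⟫) (𝓝[>] (0 : ℝ)) (𝓝 ⟪c i, x⟫) := by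
      have h1 : Continuous fun ε : ℝ => ⟪c i, x + ε • c j⟫ := by fun_prop
      have h2 := h1.tendsto (0 : ℝ)
      simp only [zero_smul, add_zero] at h2
      exact h2.mono_left nhdsWithin_le_nhds
    rcases lt_or_gt_of_ne (hxi i hij) with h1 | h1
    · filter_upwards [hcont.eventually (gt_mem_nhds h1)] with ε h2 _
      constructor
      · intro h3; exact absurd h3 (not_lt.2 h1.le)
      · intro h3; exact absurd h3 (not_lt.2 h2.le)
    · filter_upwards [hcont.eventually (lt_mem_nhds h1)] with ε h2 _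
      exact ⟨fun _ => h2, fun _ => h1⟩
  obtain ⟨ε, hε, hpos⟩ := (hev.and self_mem_nhdsWithin).exists
  refine ⟨x, x + ε • c j, hε, ?_, ?_⟩
  · rw [hxj]; exact lt_irrefl _
  · rw [inner_add_right, inner_smul_right, hxj, hjj, mul_one]
    have : (0 : ℝ) < ε := hpos
    linarith

end Pool.Agent.L7h82.KN
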